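import Pool.Agent.H.MP_68720f_al.Main

namespace Pool.Agent.Results.MP_68720f_al.Q1

open Pool.Agent.H.MP_68720f_al

theorem result (F : Type) [Field F] (n : ℕ) (hn : 4 ≤ n) :
    IsSimpleAlg F (CD (0 : F) (fun _ => 1) n) ∧
      ∃ (B : Type) (_ : NonUnitalNonAssocRing B) (_ : Module F B) (_ : IsScalarTower F B B)
        (_ : SMulCommClass F B B),
        (∀ x y : B, x * y = -(y * x)) ∧ (∀ x : B, x * x = 0) ∧
          InVar F (CD (0 : F) (fun _ => 1) n) B ∧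
          ∃ T : Finset B, ¬ IsNilp (NonUnitalAlgebra.adjoin F (T : Set B) : Set B) := by
  obtain ⟨k, rfl⟩ : ∃ k, n = k + 4 := ⟨n - 4, by omega⟩
  refine ⟨simple (0 : F) (fun _ => 1) (by simp) (by simp) (k + 2), ?_⟩
  obtain ⟨u, v, h0, h1, h2, h3, h4⟩ := pair (F := F) k
  exact general (A := CD (0 : F) (fun _ => 1) (k + 4)) u v h0 h1 h2 h3 h4

end Pool.Agent.Results.MP_68720f_al.Q1
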